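import Pool.Agent.H67.SubsetStab

set_option autoImplicit false

namespace Pool.Agent.Results.MP_5c8dfa_al.NoBound

open Pointwise

/-- For every `C` there are a finite set, a (transitive) permutation group `G` on it and an
epimorphism `φ` onto a finite group `H` of order at least `C` such that every setwise stabilizer
maps onto `H`. -/
theorem result : ∀ C : ℕ, ∃ (Ω : Type) (_ : Finite Ω) (G : Subgroup (Equiv.Perm Ω))
    (H : Type) (_ : Group H) (_ : Finite H) (φ : G →* H),
      (∀ a b : Ω, ∃ g ∈ G, g a = b) ∧ Function.Surjective φ ∧ C ≤ Nat.card H ∧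
      ∀ Δ : Set Ω, (MulAction.stabilizer G Δ).map φ = ⊤ := by
  intro C
  refine ⟨H67.SubsetStab.Om C, inferInstance, H67.SubsetStab.GG C,
    Multiplicative (H67.SubsetStab.K C), inferInstance, inferInstance, H67.SubsetStab.phi C,
    H67.SubsetStab.transitive, ?_, ?_, ?_⟩
  · intro a
    obtain ⟨g, -, hg⟩ := H67.SubsetStab.onto ∅ a.toAdd
    exact ⟨g, hg⟩
  · rw [Nat.card_eq_fintype_card, Fintype.card_multiplicative]
    simp only [Fintype.card_pi, ZMod.card, Finset.prod_const, Finset.card_univ, Fintype.card_fin]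
    exact Nat.lt_two_pow_self.le
  · intro Δ
    rw [eq_top_iff]
    intro a _
    obtain ⟨g, hΔ, hg⟩ := H67.SubsetStab.onto Δ a.toAdd
    refine ⟨g, ?_, hg⟩
    rw [SetLike.mem_coe, MulAction.mem_stabilizer_set]
    exact hΔ

end Pool.Agent.Results.MP_5c8dfa_al.NoBound
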